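import Pool.Agent.N720.SL.Stm

/-!
# Project CY, task BALL: Schur's test and the bound on balls
-/

set_option autoImplicit false

namespace Pool.Agent.N319.CY

open MeasureTheory Set Metric Complex
open scoped ENNReal NNReal RealInnerProductSpace
open Pool.Agent.N720.SL

theorem young (a b : ℂ) (h : ℝ≥0∞) :
    ‖a‖ₑ * ‖b‖ₑ * h ≤ 2⁻¹ * (‖a‖ₑ ^ 2 * h) + 2⁻¹ * (‖b‖ₑ ^ 2 * h) := by
  have h1 : 2 * (‖a‖ₑ * ‖b‖ₑ) ≤ ‖a‖ₑ ^ 2 + ‖b‖ₑ ^ 2 := by
    have h2 := two_mul_le_add_sq (‖a‖₊) (‖b‖₊)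
    have h3 : ((2 * ‖a‖₊ * ‖b‖₊ : ℝ≥0) : ℝ≥0∞) ≤ ((‖a‖₊ ^ 2 + ‖b‖₊ ^ 2 : ℝ≥0) : ℝ≥0∞) :=
      ENNReal.coe_le_coe.2 h2
    push_cast at h3
    rw [mul_assoc] at h3
    exact h3
  have h4 : ‖a‖ₑ * ‖b‖ₑ ≤ 2⁻¹ * (‖a‖ₑ ^ 2 + ‖b‖ₑ ^ 2) := by
    calc ‖a‖ₑ * ‖b‖ₑ = 2⁻¹ * (2 * (‖a‖ₑ * ‖b‖ₑ)) := by
          rw [← mul_assoc, ENNReal.inv_mul_cancel two_ne_zero ENNReal.ofNat_ne_top, one_mul]
      _ ≤ 2⁻¹ * (‖a‖ₑ ^ 2 + ‖b‖ₑ ^ 2) := by gcongr
  calc ‖a‖ₑ * ‖b‖ₑ * h ≤ 2⁻¹ * (‖a‖ₑ ^ 2 + ‖b‖ₑ ^ 2) * h := by gcongr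
    _ = _ := by ring

theorem sch : S_SCH := by
  intro k ν g h hν hg hh hsym B hB
  have hm : Measurable fun p : E k × E k => h (p.1 - p.2) :=
    hh.comp (measurable_fst.sub measurable_snd)
  have hg2 : Measurable fun y => ‖g y‖ₑ ^ 2 := hg.enorm.pow_const 2
  have m1 : Measurable fun p : E k × E k => ‖g p.1‖ₑ ^ 2 * h (p.1 - p.2) :=
    (hg2.comp measurable_fst).mul hm
  have m2 : Measurable fun p : E k × E k => ‖g p.2‖ₑ ^ 2 * h (p.1 - p.2) :=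
    (hg2.comp measurable_snd).mul hm
  have m1' : Measurable fun p : E k × E k => 2⁻¹ * (‖g p.1‖ₑ ^ 2 * h (p.1 - p.2)) :=
    m1.const_mul _
  have h1 : ∫⁻ p : E k × E k, ‖g p.1‖ₑ ^ 2 * h (p.1 - p.2) ∂(ν.prod ν) ≤
      B * ∫⁻ y, ‖g y‖ₑ ^ 2 ∂ν := by
    rw [lintegral_prod _ m1.aemeasurable,
      ← lintegral_const_mul _ hg2]
    refine lintegral_mono fun y => ?_
    have m3 : Measurable fun y' => h (y - y') := hh.comp (measurable_const.sub measurable_id)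
    show ∫⁻ y', ‖g y‖ₑ ^ 2 * h (y - y') ∂ν ≤ B * ‖g y‖ₑ ^ 2
    rw [lintegral_const_mul _ m3, mul_comm]
    gcongr
    exact hB y
  have h2 : ∫⁻ p : E k × E k, ‖g p.2‖ₑ ^ 2 * h (p.1 - p.2) ∂(ν.prod ν) ≤
      B * ∫⁻ y, ‖g y‖ₑ ^ 2 ∂ν := by
    rw [lintegral_prod_symm _ m2.aemeasurable,
      ← lintegral_const_mul _ hg2]
    refine lintegral_mono fun y => ?_
    have m3 : Measurable fun x => h (x - y) := hh.comp (measurable_id.sub measurable_const)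
    show ∫⁻ x, ‖g y‖ₑ ^ 2 * h (x - y) ∂ν ≤ B * ‖g y‖ₑ ^ 2
    rw [lintegral_const_mul _ m3, mul_comm]
    gcongr
    calc ∫⁻ x, h (x - y) ∂ν = ∫⁻ x, h (y - x) ∂ν := by
          refine lintegral_congr fun x => ?_
          rw [← hsym (y - x), neg_sub]
      _ ≤ B := hB y
  have hhalf : (2 : ℝ≥0∞)⁻¹ + 2⁻¹ = 1 := ENNReal.inv_two_add_inv_two
  calc ∫⁻ p : E k × E k, ‖g p.1‖ₑ * ‖g p.2‖ₑ * h (p.1 - p.2) ∂(ν.prod ν)
      ≤ ∫⁻ p : E k × E k, (2⁻¹ * (‖g p.1‖ₑ ^ 2 * h (p.1 - p.2)) +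
          2⁻¹ * (‖g p.2‖ₑ ^ 2 * h (p.1 - p.2))) ∂(ν.prod ν) :=
        lintegral_mono fun p => young _ _ _
    _ = 2⁻¹ * ∫⁻ p : E k × E k, ‖g p.1‖ₑ ^ 2 * h (p.1 - p.2) ∂(ν.prod ν) +
          2⁻¹ * ∫⁻ p : E k × E k, ‖g p.2‖ₑ ^ 2 * h (p.1 - p.2) ∂(ν.prod ν) := by
        rw [lintegral_add_left m1', lintegral_const_mul _ m1, lintegral_const_mul _ m2]
    _ ≤ 2⁻¹ * (B * ∫⁻ y, ‖g y‖ₑ ^ 2 ∂ν) + 2⁻¹ * (B * ∫⁻ y, ‖g y‖ₑ ^ 2 ∂ν) := by gcongr
    _ = B * ∫⁻ y, ‖g y‖ₑ ^ 2 ∂ν := by rw [← add_mul, hhalf, one_mul]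

/-- the series -/
theorem summ (α : ℝ) : Summable fun j : ℕ => ((j : ℝ) + 1) ^ α * Real.exp (-(Real.pi * (j : ℝ) ^ 2)) := by
  have h1 : Summable fun n : ℕ => (((n + 1 : ℕ) : ℝ)) ^ ⌈α⌉₊ * Real.exp (-1 * ((n + 1 : ℕ) : ℝ)) :=
    (summable_nat_add_iff 1).2 (Real.summable_pow_mul_exp_neg_nat_mul ⌈α⌉₊ one_pos)
  refine Summable.of_nonneg_of_le (fun j => by positivity) (fun j => ?_) (h1.mul_left (Real.exp 1))
  have hj : (1 : ℝ) ≤ (j : ℝ) + 1 := by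
    have : (0 : ℝ) ≤ j := Nat.cast_nonneg j
    linarith
  have h2 : ((j : ℝ) + 1) ^ α ≤ ((j : ℝ) + 1) ^ ⌈α⌉₊ := by
    rw [← Real.rpow_natCast]
    exact Real.rpow_le_rpow_of_exponent_le hj (Nat.le_ceil α)
  have h3 : Real.exp (-(Real.pi * (j : ℝ) ^ 2)) ≤ Real.exp 1 * Real.exp (-1 * ((j : ℝ) + 1)) := by
    rw [← Real.exp_add]
    apply Real.exp_le_exp.2
    have h4 : (j : ℝ) ≤ (j : ℝ) ^ 2 := by
      have : j ≤ j ^ 2 := Nat.le_self_pow two_ne_zero j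
      exact_mod_cast this
    have h5 := Real.pi_gt_three
    nlinarith [sq_nonneg (j : ℝ)]
  push_cast
  calc ((j : ℝ) + 1) ^ α * Real.exp (-(Real.pi * (j : ℝ) ^ 2))
      ≤ ((j : ℝ) + 1) ^ ⌈α⌉₊ * (Real.exp 1 * Real.exp (-1 * ((j : ℝ) + 1))) := by gcongr
    _ = _ := by ring

/-- the integral of the Gaussian kernel -/
theorem kernel_bound (k : ℕ) (α : ℝ) (A : ℝ) (hA : 0 ≤ A) (ν : Measure (E k))
    (hν : Growth ν α A) (l : ℝ) (hl : 0 < l) (hl10 : l ≤ 10) (hα : 0 ≤ α) (y : E k) :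
    ∫⁻ y', ENNReal.ofReal (l ^ k * Real.exp (-(Real.pi * l ^ 2 * ‖y - y'‖ ^ 2))) ∂ν ≤
      ENNReal.ofReal (A * l ^ ((k : ℝ) - α) * 10 ^ α *
        ∑' j : ℕ, ((j : ℝ) + 1) ^ α * Real.exp (-(Real.pi * (j : ℝ) ^ 2))) := by
  set c : ℕ → ℝ := fun j => l ^ k * Real.exp (-(Real.pi * (j : ℝ) ^ 2)) with hc
  have hpt : ∀ y' : E k, ENNReal.ofReal (l ^ k * Real.exp (-(Real.pi * l ^ 2 * ‖y - y'‖ ^ 2))) ≤
      ∑' j : ℕ, (ball y (((j : ℝ) + 1) / l)).indicator (fun _ => ENNReal.ofReal (c j)) y' := by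
    intro y'
    set j : ℕ := ⌊‖y - y'‖ * l⌋₊ with hj
    have h0 : 0 ≤ ‖y - y'‖ * l := by positivity
    have h1 : (j : ℝ) ≤ ‖y - y'‖ * l := Nat.floor_le h0
    have h2 : ‖y - y'‖ * l < j + 1 := Nat.lt_floor_add_one _
    refine le_trans ?_ (ENNReal.le_tsum j)
    have hmem : y' ∈ ball y (((j : ℝ) + 1) / l) := by
      rw [mem_ball', dist_eq_norm, lt_div_iff₀ hl]; exact h2
    rw [indicator_of_mem hmem]
    apply ENNReal.ofReal_le_ofReal
    have h3 : (j : ℝ) ^ 2 ≤ l ^ 2 * ‖y - y'‖ ^ 2 := by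
      calc (j : ℝ) ^ 2 ≤ (‖y - y'‖ * l) ^ 2 := pow_le_pow_left₀ (Nat.cast_nonneg j) h1 2
        _ = l ^ 2 * ‖y - y'‖ ^ 2 := by ring
    have h4 : Real.exp (-(Real.pi * l ^ 2 * ‖y - y'‖ ^ 2)) ≤ Real.exp (-(Real.pi * (j : ℝ) ^ 2)) := by
      apply Real.exp_le_exp.2
      have h5 := mul_le_mul_of_nonneg_left h3 Real.pi_pos.le
      rw [← mul_assoc] at h5
      linarith
    exact mul_le_mul_of_nonneg_left h4 (by positivity)
  calc ∫⁻ y', ENNReal.ofReal (l ^ k * Real.exp (-(Real.pi * l ^ 2 * ‖y - y'‖ ^ 2))) ∂ν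
      ≤ ∫⁻ y', ∑' j : ℕ, (ball y (((j : ℝ) + 1) / l)).indicator
          (fun _ => ENNReal.ofReal (c j)) y' ∂ν := lintegral_mono hpt
    _ = ∑' j : ℕ, ENNReal.ofReal (c j) * ν (ball y (((j : ℝ) + 1) / l)) := by
        rw [lintegral_tsum fun j => (measurable_const.indicator measurableSet_ball).aemeasurable]
        refine tsum_congr fun j => ?_
        rw [lintegral_indicator_const measurableSet_ball]
    _ ≤ ∑' j : ℕ, ENNReal.ofReal (A * l ^ ((k : ℝ) - α) * 10 ^ α *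
          (((j : ℝ) + 1) ^ α * Real.exp (-(Real.pi * (j : ℝ) ^ 2)))) := by
        refine ENNReal.tsum_le_tsum fun j => ?_
        have hj0 : (0 : ℝ) < (j : ℝ) + 1 := by positivity
        have h1 : 1 ≤ 10 * ((j : ℝ) + 1) / l := by
          rw [le_div_iff₀ hl]
          have : (0 : ℝ) ≤ j := Nat.cast_nonneg j
          linarith
        have h2 : ν (ball y (((j : ℝ) + 1) / l)) ≤
            ENNReal.ofReal (A * (10 * ((j : ℝ) + 1) / l) ^ α) := by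
          refine le_trans (measure_mono (ball_subset_ball ?_)) (hν y _ h1)
          rw [mul_div_assoc]
          have : 0 ≤ ((j : ℝ) + 1) / l := by positivity
          linarith
        calc ENNReal.ofReal (c j) * ν (ball y (((j : ℝ) + 1) / l))
            ≤ ENNReal.ofReal (c j) * ENNReal.ofReal (A * (10 * ((j : ℝ) + 1) / l) ^ α) := by gcongr
          _ = ENNReal.ofReal (c j * (A * (10 * ((j : ℝ) + 1) / l) ^ α)) := by
              have hc0 : 0 ≤ c j := by rw [hc]; positivity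
              exact (ENNReal.ofReal_mul hc0).symm
          _ = _ := by
              congr 1
              rw [hc]
              have e1 : (10 * ((j : ℝ) + 1) / l) ^ α = 10 ^ α * ((j : ℝ) + 1) ^ α / l ^ α := by
                rw [Real.div_rpow (by positivity) hl.le, Real.mul_rpow (by norm_num) hj0.le]
              have e2 : l ^ ((k : ℝ) - α) = l ^ k / l ^ α := by
                rw [Real.rpow_sub hl, Real.rpow_natCast]
              rw [e1, e2]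
              ring
    _ = ENNReal.ofReal (A * l ^ ((k : ℝ) - α) * 10 ^ α *
        ∑' j : ℕ, ((j : ℝ) + 1) ^ α * Real.exp (-(Real.pi * (j : ℝ) ^ 2))) := by
        rw [← tsum_mul_left, ENNReal.ofReal_tsum_of_nonneg]
        · intro j; positivity
        · exact (summ α).mul_left _

/-- the extension is measurable and bounded -/
theorem hat_sm {k : ℕ} (ν : Measure (E k)) [SFinite ν] (g : E k → ℂ) (hg : Measurable g) :
    StronglyMeasurable (hat ν g) := by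
  unfold hat
  have h1 : StronglyMeasurable fun p : E k × E k => g p.2 * ex ⟪p.1, p.2⟫ := by
    apply Measurable.stronglyMeasurable
    refine (hg.comp measurable_snd).mul ?_
    unfold ex
    fun_prop
  exact h1.integral_prod_right

theorem norm_ex (θ : ℝ) : ‖ex θ‖ = 1 := by
  unfold ex
  rw [Complex.norm_exp_ofReal_mul_I]

theorem hat_norm_le {k : ℕ} (ν : Measure (E k)) (g : E k → ℂ) (w : E k) :
    ‖hat ν g w‖ ≤ ∫ ξ, ‖g ξ‖ ∂ν := by
  unfold hat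
  refine (norm_integral_le_integral_norm _).trans (le_of_eq ?_)
  refine integral_congr_ae (Filter.Eventually.of_forall fun ξ => ?_)
  simp only [norm_mul, norm_ex, mul_one]

theorem gauss_int {k : ℕ} (c : E k) (l : ℝ) (hl : 0 < l) :
    Integrable fun w : E k => Real.exp (-(Real.pi * ‖w - c‖ ^ 2 / l ^ 2)) := by
  have h1 : Integrable fun w : E k => Real.exp (-(Real.pi / l ^ 2) * ‖w‖ ^ 2) := by
    have h2 := (GaussianFourier.integrable_cexp_neg_mul_sq_norm_add (V := E k)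
      (b := ((Real.pi / l ^ 2 : ℝ) : ℂ)) (by rw [Complex.ofReal_re]; positivity) 0 0).norm
    refine h2.congr (Filter.Eventually.of_forall fun w => ?_)
    simp only [Complex.norm_exp]
    congr 1
    simp [← Complex.ofReal_pow]
  have h3 := h1.comp_sub_right c
  refine h3.congr (Filter.Eventually.of_forall fun w => ?_)
  simp only
  congr 1
  ring

theorem main (hG : S_GAU) : S_BALL := by
  intro k α hα
  set S := ∑' j : ℕ, ((j : ℝ) + 1) ^ α * Real.exp (-(Real.pi * (j : ℝ) ^ 2)) with hS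
  have hS0 : 0 ≤ S := tsum_nonneg fun j => by positivity
  refine ⟨Real.exp Real.pi * 10 ^ α * S, by positivity, ?_⟩
  intro A ν hA hν hgr c l hl hl10 g hg hgi
  have hsm := hat_sm ν g hg
  set G : E k → ℝ := fun w => Real.exp (-(Real.pi * ‖w - c‖ ^ 2 / l ^ 2)) * ‖hat ν g w‖ ^ 2
    with hGdef
  set h : E k → ℝ≥0∞ := fun z =>
    ENNReal.ofReal (l ^ k * Real.exp (-(Real.pi * l ^ 2 * ‖z‖ ^ 2))) with hh
  have hhm : Measurable h := by
    rw [hh]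
    fun_prop
  have hG0 : ∀ w, 0 ≤ G w := fun w => by rw [hGdef]; positivity
  have hGi : Integrable G := by
    refine Integrable.mono' ((gauss_int c l hl).mul_const ((∫ ξ, ‖g ξ‖ ∂ν) ^ 2)) ?_
      (Filter.Eventually.of_forall fun w => ?_)
    · exact ((gauss_int c l hl).aestronglyMeasurable).mul
        ((hsm.norm.pow 2).aestronglyMeasurable)
    · rw [Real.norm_of_nonneg (hG0 w)]
      exact mul_le_mul_of_nonneg_left (pow_le_pow_left₀ (norm_nonneg _) (hat_norm_le ν g w) 2)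
        (Real.exp_pos _).le
  -- step 1
  have h1 : ∫⁻ w in closedBall c l, ‖hat ν g w‖ₑ ^ 2 ≤
      ENNReal.ofReal (Real.exp Real.pi) * ENNReal.ofReal (∫ w, G w) := by
    rw [ofReal_integral_eq_lintegral_ofReal hGi (Filter.Eventually.of_forall hG0),
      ← lintegral_const_mul' _ _ ENNReal.ofReal_ne_top]
    refine le_trans (setLIntegral_mono' measurableSet_closedBall fun w hw => ?_)
      (setLIntegral_le_lintegral (closedBall c l) _)
    rw [mem_closedBall, dist_eq_norm] at hw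
    rw [← ofReal_norm, ← ENNReal.ofReal_pow (norm_nonneg _),
      ← ENNReal.ofReal_mul (Real.exp_pos _).le]
    apply ENNReal.ofReal_le_ofReal
    have h3 : ‖w - c‖ ^ 2 / l ^ 2 ≤ 1 := by
      rw [div_le_one (by positivity)]
      exact pow_le_pow_left₀ (norm_nonneg _) hw 2
    have h4 : 1 ≤ Real.exp Real.pi * Real.exp (-(Real.pi * ‖w - c‖ ^ 2 / l ^ 2)) := by
      rw [← Real.exp_add]
      apply Real.one_le_exp
      have h5 := mul_le_mul_of_nonneg_left h3 Real.pi_pos.le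
      rw [← mul_div_assoc] at h5
      linarith
    calc ‖hat ν g w‖ ^ 2 = 1 * ‖hat ν g w‖ ^ 2 := (one_mul _).symm
      _ ≤ (Real.exp Real.pi * Real.exp (-(Real.pi * ‖w - c‖ ^ 2 / l ^ 2))) * ‖hat ν g w‖ ^ 2 :=
          mul_le_mul_of_nonneg_right h4 (by positivity)
      _ = Real.exp Real.pi * G w := by rw [hGdef]; ring
  -- step 2
  have h2 : ENNReal.ofReal (∫ w, G w) ≤
      ∫⁻ p : E k × E k, ‖g p.1‖ₑ * ‖g p.2‖ₑ * h (p.1 - p.2) ∂(ν.prod ν) := by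
    have h3 := hG k ν g hν hg hgi c l hl
    have h4 : ENNReal.ofReal (∫ w, G w) = ‖((∫ w, G w : ℝ) : ℂ)‖ₑ := by
      rw [← ofReal_norm, Complex.norm_real,
        Real.norm_of_nonneg (integral_nonneg hG0)]
    rw [h4, h3]
    refine (enorm_integral_le_lintegral_enorm _).trans (le_of_eq (lintegral_congr fun p => ?_))
    rw [← ofReal_norm, norm_mul, norm_mul, norm_mul, norm_ex, one_mul, RCLike.norm_conj,
      Complex.norm_real, Real.norm_of_nonneg (by positivity),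
      ENNReal.ofReal_mul (by positivity), ENNReal.ofReal_mul (by positivity),
      ofReal_norm, ofReal_norm]
  -- step 3
  have h3 := sch k ν g h hν hg hhm (fun y => by rw [hh]; simp only [norm_neg])
    (ENNReal.ofReal (A * l ^ ((k : ℝ) - α) * 10 ^ α * S))
    (fun y => kernel_bound k α A hA ν hgr l hl hl10 hα y)
  calc ∫⁻ w in closedBall c l, ‖hat ν g w‖ₑ ^ 2
      ≤ ENNReal.ofReal (Real.exp Real.pi) * (ENNReal.ofReal (A * l ^ ((k : ℝ) - α) * 10 ^ α * S) *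
          ∫⁻ y, ‖g y‖ₑ ^ 2 ∂ν) := by
        refine h1.trans ?_
        gcongr
        exact h2.trans h3
    _ = ENNReal.ofReal (Real.exp Real.pi * 10 ^ α * S * A * l ^ ((k : ℝ) - α)) *
          ∫⁻ y, ‖g y‖ₑ ^ 2 ∂ν := by
        rw [← mul_assoc, ← ENNReal.ofReal_mul (Real.exp_pos _).le]
        congr 2
        ring

end Pool.Agent.N319.CY
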